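import Mathlib

set_option autoImplicit false

open Metric Set Filter Topology

namespace Pool.Agent.helper29.RS

theorem prod_nsmul_singleton (s : Finset ℂ) (n : ℂ → ℕ) (z : ℂ) :
    ((∑ u ∈ s, n u • ({u} : Multiset ℂ)).map fun u => z - u).prod = ∏ u ∈ s, (z-u)^(n u) := by
  have : (∑ u ∈ s, n u • ({u} : Multiset ℂ)).map (fun u => z - u)
      = ∑ u ∈ s, (n u • ({u} : Multiset ℂ)).map (fun u => z - u) :=
    map_sum (Multiset.mapAddMonoidHom (fun u => z - u)) _ _
  rw [this, Multiset.prod_sum]
  apply Finset.prod_congr rfl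
  intro u hu
  rw [Multiset.map_nsmul, Multiset.prod_nsmul]
  simp

/-- Extraction of the zeros of an analytic function on a closed disc. -/
theorem exists_factor {f : ℂ → ℂ} {c : ℂ} {R : ℝ} (hR : 0 < R)
    (hf : AnalyticOnNhd ℂ f (closedBall c R)) (hne : ∃ z ∈ closedBall c R, f z ≠ 0) :
    ∃ (zs : Multiset ℂ) (g : ℂ → ℂ), (∀ u ∈ zs, u ∈ closedBall c R) ∧
      AnalyticOnNhd ℂ g (closedBall c R) ∧ (∀ z ∈ closedBall c R, g z ≠ 0) ∧
      ∀ z ∈ closedBall c R, f z = (zs.map fun u => z - u).prod * g z := by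
  classical
  have hmer : MeromorphicOn f (closedBall c R) := hf.meromorphicOn
  have hconn : IsPreconnected (closedBall c R) := (convex_closedBall c R).isPreconnected
  have horder : ∀ u : closedBall c R, meromorphicOrderAt f u ≠ ⊤ := by
    intro u hu
    obtain ⟨z, hz, hfz⟩ := hne
    have h1 : ∀ᶠ w in 𝓝[≠] (u : ℂ), f w = 0 := meromorphicOrderAt_eq_top_iff.1 hu
    have h2 : EqOn f 0 (closedBall c R) := by
      apply hf.eqOn_zero_of_preconnected_of_frequently_eq_zero hconn u.2
      exact h1.frequently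
    exact hfz (h2 hz)
  have hfin : (MeromorphicOn.divisor f (closedBall c R)).support.Finite :=
    (MeromorphicOn.divisor f (closedBall c R)).finiteSupport (isCompact_closedBall c R)
  obtain ⟨g, hg, hg0, hfg⟩ := hmer.extract_zeros_poles horder hfin
  set D := MeromorphicOn.divisor f (closedBall c R) with hD
  have hDnn : 0 ≤ D := MeromorphicOn.AnalyticOnNhd.divisor_nonneg hf
  refine ⟨∑ u ∈ hfin.toFinset, (D u).toNat • ({u} : Multiset ℂ), g, ?_, hg, fun z hz => hg0 ⟨z, hz⟩, ?_⟩
  · intro u hu
    rw [Multiset.mem_sum] at hu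
    obtain ⟨v, hv, huv⟩ := hu
    have : u = v := by
      have := Multiset.mem_of_mem_nsmul huv
      simpa using this
    subst this
    have hv' : D u ≠ 0 := by simpa using hv
    by_contra hcon
    exact hv' (D.apply_eq_zero_of_notMem hcon)
  · have hprod : ∀ z, (∏ u ∈ hfin.toFinset, (z-u)^((D u).toNat)) = (∏ᶠ u, (· - u) ^ D u : ℂ → ℂ) z := by
      intro z
      have : (∏ᶠ u, (· - u) ^ D u : ℂ → ℂ) = ∏ u ∈ hfin.toFinset, (· - u) ^ D u := by
        apply finprod_eq_prod_of_mulSupport_subset
        intro u hu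
        simp only [Finite.coe_toFinset, Function.mem_support]
        intro h0
        apply hu
        funext w
        simp [h0]
      rw [this, Finset.prod_apply]
      apply Finset.prod_congr rfl
      intro u hu
      have h0 : 0 ≤ D u := hDnn u
      calc (z - u) ^ ((D u).toNat) = (z - u) ^ (((D u).toNat : ℕ) : ℤ) := (zpow_natCast _ _).symm
        _ = (z - u) ^ (D u) := by rw [Int.toNat_of_nonneg h0]
    have hana : AnalyticOnNhd ℂ (fun z => (∏ u ∈ hfin.toFinset, (z-u)^((D u).toNat)) * g z) (closedBall c R) := by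
      intro z hz
      refine AnalyticAt.mul ?_ (hg z hz)
      fun_prop
    have hEq : EqOn f (fun z => (∏ u ∈ hfin.toFinset, (z-u)^((D u).toNat)) * g z) (closedBall c R) := by
      apply hf.eqOn_of_preconnected_of_frequently_eq hana hconn (mem_closedBall_self hR.le)
      have h1 : ∀ᶠ w in 𝓝[≠] c, f w = ((∏ᶠ u, (· - u) ^ D u) • g) w := by
        have h2 := hfg
        rw [Filter.EventuallyEq, Filter.Eventually, mem_codiscreteWithin] at h2
        have h3 := h2 c (mem_closedBall_self hR.le)
        rw [disjoint_principal_right] at h3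
        have h4 : closedBall c R ∈ 𝓝[≠] c := mem_nhdsWithin_of_mem_nhds (closedBall_mem_nhds c hR)
        filter_upwards [h3, h4] with w hw1 hw2
        by_contra hcon
        exact hw1 ⟨hw2, hcon⟩
      apply Filter.Eventually.frequently
      filter_upwards [h1] with w hw
      rw [hw, hprod]
      rfl
    intro z hz
    rw [prod_nsmul_singleton]
    exact hEq hz

end Pool.Agent.helper29.RS
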