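import Mathlib

set_option autoImplicit false

open Metric Set Filter Topology

namespace Pool.Agent.helper29.RS

/-- holomorphic logarithm on a disc -/
theorem exists_log_ball {g : ℂ → ℂ} {c : ℂ} {R : ℝ} (hR : 0 < R)
    (hg : DifferentiableOn ℂ g (ball c R)) (h0 : ∀ z ∈ ball c R, g z ≠ 0) :
    ∃ Γ : ℂ → ℂ, DifferentiableOn ℂ Γ (ball c R) ∧ ∀ z ∈ ball c R, Complex.exp (Γ z) = g z := by
  have hopen : IsOpen (ball c R) := isOpen_ball
  have hd : DifferentiableOn ℂ (fun z => deriv g z / g z) (ball c R) :=
    (hg.deriv hopen).div hg h0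
  obtain ⟨F, hFc, hF⟩ := hd.isExactOn_ball.with_val_at c (Complex.log (g c))
  refine ⟨F, fun z hz => (hF z hz).differentiableAt.differentiableWithinAt, ?_⟩
  have hc : c ∈ ball c R := mem_ball_self hR
  have hgd : ∀ z ∈ ball c R, HasDerivAt g (deriv g z) z := fun z hz =>
    (hg.differentiableAt (hopen.mem_nhds hz)).hasDerivAt
  have hH : ∀ z ∈ ball c R, HasDerivAt (fun z => g z * Complex.exp (-F z)) 0 z := by
    intro z hz
    have h1 := (hgd z hz).mul ((hF z hz).neg.cexp)
    have h2 : deriv g z * Complex.exp (-F z) + g z * (Complex.exp (-F z) * -(deriv g z / g z)) = 0 := by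
      have := h0 z hz
      field_simp
      ring
    have h3 := h1.congr_deriv (g' := 0) h2
    exact h3
  have hconst : ∀ z ∈ ball c R, g z * Complex.exp (-F z) = g c * Complex.exp (-F c) := by
    intro z hz
    have := (convex_ball c R).is_const_of_fderivWithin_eq_zero (𝕜 := ℂ)
      (f := fun z => g z * Complex.exp (-F z))
      (fun w hw => (hH w hw).differentiableAt.differentiableWithinAt) ?_ hz hc
    · exact this
    · intro w hw
      rw [fderivWithin_of_isOpen hopen hw]
      ext
      simp [(hH w hw).deriv]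
  intro z hz
  have h1 := hconst z hz
  rw [hFc, Complex.exp_neg (Complex.log (g c)), Complex.exp_log (h0 c hc),
    mul_inv_cancel₀ (h0 c hc), Complex.exp_neg] at h1
  field_simp at h1
  exact h1.symm

/-- a zero free analytic function on a closed disc has a logarithm on the closed disc which
is continuous and bounded -/
theorem exists_log_closedBall {g : ℂ → ℂ} {c : ℂ} {R : ℝ} (hR : 0 < R)
    (hg : AnalyticOnNhd ℂ g (closedBall c R)) (h0 : ∀ z ∈ closedBall c R, g z ≠ 0) :
    ∃ Γ : ℂ → ℂ, ContinuousOn Γ (closedBall c R) ∧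
      ∀ z ∈ closedBall c R, Complex.exp (Γ z) = g z := by
  -- open neighbourhood where g is differentiable and nonzero
  have hU : {z | AnalyticAt ℂ g z ∧ g z ≠ 0} ∈ 𝓝ˢ (closedBall c R) := by
    rw [mem_nhdsSet_iff_forall]
    intro z hz
    have h1 := (hg z hz).eventually_analyticAt
    have h2 := (hg z hz).continuousAt.eventually_ne (h0 z hz)
    filter_upwards [h1, h2] with w hw1 hw2 using ⟨hw1, hw2⟩
  obtain ⟨δ, hδ, hsub⟩ := (isCompact_closedBall c R).exists_thickening_subset_open
    (isOpen_interior (s := {z | AnalyticAt ℂ g z ∧ g z ≠ 0}))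
    (subset_interior_iff_mem_nhdsSet.2 hU)
  have hb : ball c (R + δ) ⊆ {z | AnalyticAt ℂ g z ∧ g z ≠ 0} := by
    intro z hz
    apply interior_subset
    apply hsub
    rw [thickening_closedBall hδ hR.le]
    rwa [add_comm]
  obtain ⟨Γ, hΓ, hexp⟩ := exists_log_ball (c := c) (R := R + δ) (g := g) (by linarith)
    (fun z hz => (hb hz).1.differentiableAt.differentiableWithinAt) (fun z hz => (hb hz).2)
  have hsub' : closedBall c R ⊆ ball c (R + δ) := closedBall_subset_ball (by linarith)
  exact ⟨Γ, hΓ.continuousOn.mono hsub', fun z hz => hexp z (hsub' hz)⟩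

end Pool.Agent.helper29.RS
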