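import Pool.Agent.helper29.RS.Fact
import Pool.Agent.helper29.RS.Log

set_option autoImplicit false

open Metric Set Filter Topology Polynomial

namespace Pool.Agent.helper29.RS

theorem exists_large_unit (ds : Multiset ℝ) :
    ∃ x ∈ Icc (-1:ℝ) 1, (1/2:ℝ) ^ (Multiset.card ds) ≤ |(ds.map fun d => x - d).prod| := by
  by_contra hcon
  push Not at hcon
  set n := Multiset.card ds with hn
  let P : ℝ[X] := (ds.map fun d => X - C d).prod
  have hPm : P.Monic := monic_multiset_prod_of_monic _ _ fun d _ => monic_X_sub_C d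
  have hPd : P.natDegree = n := by
    simp [P, natDegree_multiset_prod_X_sub_C_eq_card, hn]
  have heval : ∀ x, P.eval x = (ds.map fun d => x - d).prod := by
    intro x
    simp only [P, eval_multiset_prod, Multiset.map_map, Function.comp_def, eval_sub, eval_X, eval_C]
  let Q : ℝ[X] := C (2^n) * P
  have hQd : Q.degree ≤ n := by
    calc Q.degree ≤ P.degree := (degree_C_mul (by positivity)).le
      _ ≤ P.natDegree := degree_le_natDegree
      _ = n := by rw [hPd]
  have hQl : Q.leadingCoeff = 2^n := by
    simp only [Q]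
    rw [leadingCoeff_mul, leadingCoeff_C, hPm.leadingCoeff, mul_one]
  have hQb : ∀ x ∈ Icc (-1:ℝ) 1, |Q.eval x| ≤ 1 := by
    intro x hx
    have h1 := (hcon x hx).le
    rw [← heval] at h1
    simp only [Q, eval_mul, eval_C]
    rw [abs_mul, abs_of_pos (by positivity : (0:ℝ) < 2^n)]
    calc (2:ℝ)^n * |P.eval x| ≤ 2^n * (1/2)^n := by gcongr
      _ = 1 := by rw [← mul_pow]; norm_num
  rcases Nat.eq_zero_or_pos n with h0 | h0
  · have hz : ds = 0 := by rw [← Multiset.card_eq_zero, ← hn, h0]
    have := hcon 0 (by norm_num)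
    rw [h0, hz] at this
    norm_num at this
  · have h1 := Polynomial.Chebyshev.leadingCoeff_le_of_forall_abs_le_one hQd hQb
    rw [hQl] at h1
    have h2 : (2:ℝ)^n = 2 * 2^(n-1) := by
      rw [← pow_succ']
      congr 1
      omega
    have h3 : (0:ℝ) < 2^(n-1) := by positivity
    linarith

theorem exists_large {R : ℝ} (hR : 0 < R) (ds : Multiset ℝ) :
    ∃ r ∈ Icc R (2*R), (R/4) ^ (Multiset.card ds) ≤ (ds.map fun d => |r - d|).prod := by
  obtain ⟨x, hx, h⟩ := exists_large_unit (ds.map fun d => (d - 3*R/2) / (R/2))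
  refine ⟨3*R/2 + R/2*x, ⟨by nlinarith [hx.1], by nlinarith [hx.2]⟩, ?_⟩
  rw [Multiset.card_map] at h
  have h1 : ∀ s : Multiset ℝ, (s.map fun d => |3*R/2 + R/2*x - d|).prod
      = (R/2)^(Multiset.card s) * |((s.map fun d => (d - 3*R/2) / (R/2)).map fun d => x - d).prod| := by
    intro s
    induction s using Multiset.induction_on with
    | empty => simp
    | cons a s ih =>
      simp only [Multiset.map_cons, Multiset.prod_cons, Multiset.card_cons]
      rw [ih, abs_mul]
      have : 3*R/2 + R/2*x - a = (R/2) * (x - (a - 3*R/2) / (R/2)) := by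
        field_simp
        ring
      rw [this, abs_mul, abs_of_pos (by positivity : 0 < R/2)]
      ring
  rw [h1]
  calc (R/4)^(Multiset.card ds) = (R/2)^(Multiset.card ds) * (1/2)^(Multiset.card ds) := by
        rw [← mul_pow]; congr 1; ring
    _ ≤ _ := by gcongr

/-- **Minimum modulus on a circle.** -/
theorem min_modulus {f : ℂ → ℂ} {s0 s1 : ℂ} {R N K : ℝ} (hR : 0 < R) (hN : 1 ≤ N) (hK : 0 < K)
    (hf : AnalyticOnNhd ℂ f (closedBall s1 (12*R)))
    (hfN : ∀ z ∈ closedBall s1 (12*R), ‖f z‖ ≤ N)
    (h1 : Real.exp (-K) ≤ ‖f s1‖) (hd : dist s0 s1 ≤ R) :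
    ∃ r ∈ Icc R (2*R), ∀ z, dist z s0 = r →
      Real.exp (-(12 * (K + Real.log N))) ≤ ‖f z‖ := by
  classical
  have hNpos : 0 < N := by linarith
  have hlogN : 0 ≤ Real.log N := Real.log_nonneg hN
  set M := K + Real.log N with hM
  have hMpos : 0 < M := by positivity
  have h12 : 0 < 12 * R := by positivity
  have hs1 : s1 ∈ closedBall s1 (12*R) := mem_closedBall_self h12.le
  have hfs1 : f s1 ≠ 0 := by
    intro h0
    rw [h0, norm_zero] at h1
    exact absurd h1 (not_le.2 (Real.exp_pos _))
  obtain ⟨zs, G, hzs, hG, hG0, hfac⟩ := exists_factor h12 hf ⟨s1, hs1, hfs1⟩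
  let zs1 := zs.filter fun u => dist u s1 ≤ 4 * R
  let zs2 := zs.filter fun u => ¬ dist u s1 ≤ 4 * R
  have hsplit : zs1 + zs2 = zs := Multiset.filter_add_not _ _
  set n := Multiset.card zs1 with hn
  let g : ℂ → ℂ := fun z => (zs2.map fun u => z - u).prod * G z * ((8:ℂ) * R)^n
  have h8R : (8:ℂ) * R ≠ 0 := by
    have : (R:ℂ) ≠ 0 := by exact_mod_cast hR.ne'
    simp [this]
  have hanaprod : ∀ s : Multiset ℂ, ∀ z, AnalyticAt ℂ (fun z => (s.map fun u => z - u).prod) z := by
    intro s z
    induction s using Multiset.induction_on with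
    | empty => simpa using analyticAt_const
    | cons a s ih =>
      simp only [Multiset.map_cons, Multiset.prod_cons]
      exact (analyticAt_id.sub analyticAt_const).mul ih
  have hg : AnalyticOnNhd ℂ g (closedBall s1 (12*R)) := fun z hz =>
    ((hanaprod zs2 z).mul (hG z hz)).mul analyticAt_const
  -- f in terms of g
  have hfg : ∀ z ∈ closedBall s1 (12*R), ‖f z‖ = (zs1.map fun u => dist z u / (8*R)).prod * ‖g z‖ := by
    intro z hz
    rw [hfac z hz, ← hsplit, Multiset.map_add, Multiset.prod_add]
    have : ∀ s : Multiset ℂ, ‖(s.map fun u => z - u).prod‖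
        = (s.map fun u => dist z u / (8*R)).prod * (8*R)^(Multiset.card s) := by
      intro s
      induction s using Multiset.induction_on with
      | empty => simp
      | cons a s ih =>
        simp only [Multiset.map_cons, Multiset.prod_cons, Multiset.card_cons]
        rw [norm_mul, ih, dist_eq_norm]
        field_simp
        ring
    simp only [g, norm_mul, norm_pow]
    rw [this zs1]
    have h8 : ‖(8:ℂ)‖ * ‖(R:ℂ)‖ = 8 * R := by
      rw [Complex.norm_real, Real.norm_of_nonneg hR.le]
      simp
    rw [h8]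
    ring
  -- the upper bound for g
  have hgsph : ∀ z ∈ sphere s1 (12*R), ‖g z‖ ≤ N := by
    intro z hz
    have hz' : z ∈ closedBall s1 (12*R) := sphere_subset_closedBall hz
    have h2 := hfg z hz'
    have h3 : 1 ≤ (zs1.map fun u => dist z u / (8*R)).prod := by
      apply Multiset.one_le_prod
      intro x hx
      rw [Multiset.mem_map] at hx
      obtain ⟨u, hu, rfl⟩ := hx
      have hu' : dist u s1 ≤ 4 * R := (Multiset.mem_filter.1 hu).2
      rw [le_div_iff₀ (by positivity)]
      have : dist z s1 ≤ dist z u + dist u s1 := dist_triangle _ _ _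
      have h4 : dist z s1 = 12 * R := hz
      linarith
    calc ‖g z‖ = 1 * ‖g z‖ := (one_mul _).symm
      _ ≤ (zs1.map fun u => dist z u / (8*R)).prod * ‖g z‖ := by gcongr
      _ = ‖f z‖ := h2.symm
      _ ≤ N := hfN z hz'
  have hgN : ∀ z ∈ closedBall s1 (12*R), ‖g z‖ ≤ N := by
    intro z hz
    have hne : (12 * R) ≠ 0 := h12.ne'
    have := Complex.norm_le_of_forall_mem_frontier_norm_le (U := ball s1 (12*R)) (f := g)
      isBounded_ball ?_ ?_ (z := z) (C := N) ?_
    · exact this
    · refine ⟨fun w hw => (hg w (ball_subset_closedBall hw)).differentiableAt.differentiableWithinAt, ?_⟩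
      rw [closure_ball _ hne]
      exact hg.continuousOn
    · rw [frontier_ball _ hne]
      exact hgsph
    · rwa [closure_ball _ hne]
  -- number of zeros
  have hgs1 : Real.exp (-K) * 2^n ≤ ‖g s1‖ := by
    have h2 := hfg s1 hs1
    have h3 : (zs1.map fun u => dist s1 u / (8*R)).prod ≤ (1/2)^n := by
      have : ∀ s : Multiset ℂ, (∀ u ∈ s, dist u s1 ≤ 4*R) →
          (s.map fun u => dist s1 u / (8*R)).prod ≤ (1/2)^(Multiset.card s) ∧
          0 ≤ (s.map fun u => dist s1 u / (8*R)).prod := by
        intro s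
        induction s using Multiset.induction_on with
        | empty => intro _; simp
        | cons a s ih =>
          intro hs
          obtain ⟨ih1, ih2⟩ := ih fun u hu => hs u (Multiset.mem_cons_of_mem hu)
          simp only [Multiset.map_cons, Multiset.prod_cons, Multiset.card_cons]
          have ha : dist s1 a / (8*R) ≤ 1/2 := by
            rw [div_le_iff₀ (by positivity), dist_comm]
            have := hs a (Multiset.mem_cons_self a s)
            linarith
          have ha0 : 0 ≤ dist s1 a / (8*R) := by positivity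
          refine ⟨?_, by positivity⟩
          rw [pow_succ']
          exact mul_le_mul ha ih1 ih2 (by norm_num)
      exact (this zs1 fun u hu => (Multiset.mem_filter.1 hu).2).1
    have h4 : Real.exp (-K) ≤ (1/2)^n * ‖g s1‖ := by
      calc Real.exp (-K) ≤ ‖f s1‖ := h1
        _ = _ := h2
        _ ≤ (1/2)^n * ‖g s1‖ := by gcongr
    calc Real.exp (-K) * 2^n ≤ ((1/2)^n * ‖g s1‖) * 2^n := by gcongr
      _ = ((1/2) * 2)^n * ‖g s1‖ := by rw [mul_pow]; ring
      _ = ‖g s1‖ := by norm_num
  have hnM : n * Real.log 2 ≤ M := by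
    have h2 : Real.exp (-K) * 2^n ≤ N := hgs1.trans (hgN s1 hs1)
    have h3 := Real.log_le_log (by positivity) h2
    rw [Real.log_mul (by positivity) (by positivity), Real.log_exp, Real.log_pow] at h3
    linarith
  -- g has no zeros in the ball of radius 4R
  have hg0 : ∀ z ∈ closedBall s1 (4*R), g z ≠ 0 := by
    intro z hz
    have hz' : z ∈ closedBall s1 (12*R) := closedBall_subset_closedBall (by linarith) hz
    simp only [g]
    refine mul_ne_zero (mul_ne_zero ?_ (hG0 z hz')) (pow_ne_zero _ h8R)
    intro h0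
    rw [Multiset.prod_eq_zero_iff, Multiset.mem_map] at h0
    obtain ⟨u, hu, hzu⟩ := h0
    have : z = u := by linear_combination hzu
    subst this
    exact (Multiset.mem_filter.1 hu).2 hz
  obtain ⟨Γ, hΓ, hexp⟩ := exists_log_ball (c := s1) (R := 4*R) (g := g) (by positivity)
    (fun z hz => (hg z (closedBall_subset_closedBall (by linarith)
      (ball_subset_closedBall hz))).differentiableAt.differentiableWithinAt)
    (fun z hz => hg0 z (ball_subset_closedBall hz))
  have hre : ∀ z ∈ ball s1 (4*R), ‖g z‖ = Real.exp (Γ z).re := by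
    intro z hz
    rw [← hexp z hz, Complex.norm_exp]
  have hs1' : s1 ∈ ball s1 (4*R) := mem_ball_self (by positivity)
  have hreL : -K ≤ (Γ s1).re := by
    have h2 : Real.exp (-K) ≤ Real.exp (Γ s1).re := by
      rw [← hre s1 hs1']
      refine le_trans ?_ hgs1
      have : (1:ℝ) ≤ 2^n := one_le_pow₀ (by norm_num)
      nlinarith [Real.exp_pos (-K)]
    exact Real.exp_le_exp.1 h2
  have hreU : ∀ z ∈ ball s1 (4*R), (Γ z).re ≤ Real.log N := by
    intro z hz
    rw [← Real.exp_le_exp, Real.exp_log hNpos, ← hre z hz]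
    exact hgN z (closedBall_subset_closedBall (by linarith) (ball_subset_closedBall hz))
  -- Borel-Caratheodory
  have hBC : ∀ z ∈ closedBall s1 (3*R), ‖Γ z - Γ s1‖ ≤ 6 * M := by
    intro z hz
    have hz3 : ‖z - s1‖ ≤ 3 * R := by rw [← dist_eq_norm]; exact hz
    have hmaps : MapsTo (fun w => s1 + w) (ball (0:ℂ) (4*R)) (ball s1 (4*R)) := by
      intro w hw
      simpa [dist_eq_norm] using hw
    have h2 := Complex.borelCaratheodory_zero (f := fun w => Γ (s1 + w) - Γ s1) (M := M)
      (R := 4*R) (z := z - s1) hMpos ?_ ?_ (by positivity) ?_ (by simp)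
    · simp only [add_sub_cancel] at h2
      refine h2.trans ?_
      rw [div_le_iff₀ (by linarith)]
      nlinarith
    · have hd' : DifferentiableOn ℂ (fun w : ℂ => s1 + w) (ball 0 (4*R)) := by fun_prop
      exact (hΓ.comp hd' hmaps).sub_const _
    · intro w hw
      have h3 := hreU (s1 + w) (hmaps hw)
      simp only [Set.mem_ofPred_eq, Complex.sub_re]
      linarith
    · rw [mem_ball_zero_iff]
      linarith
  -- choice of the radius
  obtain ⟨r, hr, hprod⟩ := exists_large hR (zs1.map fun u => dist u s0)
  rw [Multiset.card_map, ← hn] at hprod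
  refine ⟨r, hr, fun z hz => ?_⟩
  have hz3 : z ∈ closedBall s1 (3*R) := by
    rw [mem_closedBall]
    calc dist z s1 ≤ dist z s0 + dist s0 s1 := dist_triangle _ _ _
      _ ≤ 2 * R + R := by rw [hz]; exact add_le_add hr.2 hd
      _ = 3 * R := by ring
  have hz4 : z ∈ ball s1 (4*R) := by
    rw [mem_ball]
    have := mem_closedBall.1 hz3
    linarith
  have hz12 : z ∈ closedBall s1 (12*R) := closedBall_subset_closedBall (by linarith) hz3
  rw [hfg z hz12, hre z hz4]
  have hG1 : -(7 * M) ≤ (Γ z).re := by
    have h2 := hBC z hz3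
    have h3 := (abs_le.1 ((Complex.abs_re_le_norm _).trans h2)).1
    rw [Complex.sub_re] at h3
    have : K ≤ M := by rw [hM]; linarith
    linarith
  have hP1 : (1/32:ℝ)^n ≤ (zs1.map fun u => dist z u / (8*R)).prod := by
    have h2 : ∀ s : Multiset ℂ, ((s.map fun u => dist u s0).map fun d => |r - d|).prod / (8*R)^(Multiset.card s)
        ≤ (s.map fun u => dist z u / (8*R)).prod ∧
        0 ≤ ((s.map fun u => dist u s0).map fun d => |r - d|).prod / (8*R)^(Multiset.card s) := by
      intro s
      induction s using Multiset.induction_on with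
      | empty => simp
      | cons a s ih =>
        obtain ⟨ih1, ih2⟩ := ih
        simp only [Multiset.map_cons, Multiset.prod_cons, Multiset.card_cons]
        have ha : |r - dist a s0| / (8*R) ≤ dist z a / (8*R) := by
          gcongr
          rw [← hz]
          have := abs_dist_sub_le z a s0
          exact this
        have e1 : |r - dist a s0| * ((s.map fun u => dist u s0).map fun d => |r - d|).prod / (8*R)^(Multiset.card s + 1)
            = (|r - dist a s0| / (8*R)) * (((s.map fun u => dist u s0).map fun d => |r - d|).prod / (8*R)^(Multiset.card s)) := by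
          rw [pow_succ]
          field_simp
        rw [e1]
        constructor
        · exact mul_le_mul ha ih1 ih2 (by positivity)
        · exact mul_nonneg (by positivity) ih2
    refine le_trans ?_ (h2 zs1).1
    rw [← hn, le_div_iff₀ (by positivity), ← mul_pow]
    refine le_trans (le_of_eq ?_) hprod
    congr 1
    ring
  have hn32 : Real.exp (-(5*M)) ≤ (1/32:ℝ)^n := by
    rw [← Real.log_le_log_iff (Real.exp_pos _) (by positivity), Real.log_exp, Real.log_pow]
    have : Real.log (1/32:ℝ) = -(5 * Real.log 2) := by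
      rw [one_div, Real.log_inv, show (32:ℝ) = 2^5 by norm_num, Real.log_pow]
      norm_num
    rw [this]
    nlinarith
  calc Real.exp (-(12 * M)) = Real.exp (-(5*M)) * Real.exp (-(7*M)) := by
        rw [← Real.exp_add]; congr 1; ring
    _ ≤ (zs1.map fun u => dist z u / (8*R)).prod * Real.exp (Γ z).re := by
        exact mul_le_mul (hn32.trans hP1) (Real.exp_le_exp.2 hG1) (Real.exp_pos _).le
          ((Real.exp_pos _).le.trans (hn32.trans hP1))

end Pool.Agent.helper29.RS
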