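import Pool.Agent.helper29.RS.Fact
import Pool.Agent.helper29.RS.Log

set_option autoImplicit false

open Metric Set Filter Topology

namespace Pool.Agent.helper29.RS

theorem degree_zero {H : ℝ → ℂ} (hH : Continuous H) {C : ℝ} (hb : ∀ θ, ‖H θ‖ ≤ C) {a : ℂ} {n : ℕ}
    (h : ∀ θ : ℝ, Complex.exp (H θ) = a * Complex.exp (n * (θ * Complex.I))) : n = 0 := by
  by_contra hn
  have hn1 : (1 : ℝ) ≤ n := by exact_mod_cast Nat.one_le_iff_ne_zero.2 hn
  have h0 : a = Complex.exp (H 0) := by
    have := h 0
    simpa using this.symm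
  let ψ : ℝ → ℝ := fun θ => (H θ).im - n * θ
  have hψ : Continuous ψ := by fun_prop
  have hC : 0 ≤ C := (norm_nonneg _).trans (hb 0)
  have hbim : ∀ θ, |(H θ).im| ≤ C := fun θ => (Complex.abs_im_le_norm _).trans (hb θ)
  let T : ℝ := 2 * C + Real.pi
  have hT0 : 0 ≤ T := by positivity
  have hT : ψ T ≤ (H 0).im - Real.pi := by
    have h1 := (abs_le.1 (hbim T)).2
    have h2 := (abs_le.1 (hbim 0)).1
    have h3 : T ≤ n * T := by nlinarith
    simp only [ψ]
    have : T = 2 * C + Real.pi := rfl
    linarith
  have hψ0 : ψ 0 = (H 0).im := by simp [ψ]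
  have hmem : (H 0).im - Real.pi ∈ Icc (ψ T) (ψ 0) := ⟨hT, by rw [hψ0]; linarith [Real.pi_pos]⟩
  obtain ⟨θ, _, hθ⟩ := intermediate_value_Icc' hT0 hψ.continuousOn hmem
  have h1 := h θ
  rw [h0, ← Complex.exp_add, Complex.exp_eq_exp_iff_exists_int] at h1
  obtain ⟨k, hk⟩ := h1
  have h2 := congrArg Complex.im hk
  simp at h2
  simp only [ψ] at hθ
  have h3 : (2 * (k:ℝ) + 1) * Real.pi = 0 := by linarith
  have h4 : (2 * (k:ℝ) + 1) = 0 := by
    rcases mul_eq_zero.1 h3 with h | h
    · exact h
    · exact absurd h Real.pi_ne_zero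
  have h5 : 2 * k + 1 = 0 := by exact_mod_cast h4
  omega

theorem bound_log_one_sub {w : ℂ} {q : ℝ} (hq : q < 1) (hw : ‖w‖ ≤ q) :
    ‖Complex.log (1 - w)‖ ≤ |Real.log (1 - q)| + |Real.log 2| + Real.pi := by
  have h1 : 1 - q ≤ ‖1 - w‖ := by
    have := norm_sub_norm_le (1:ℂ) w
    simp at this
    linarith
  have h2 : ‖1 - w‖ ≤ 2 := by
    have := norm_sub_le (1:ℂ) w
    simp at this
    linarith
  have hpos : 0 < 1 - q := by linarith
  have hlog : |Real.log ‖1 - w‖| ≤ |Real.log (1 - q)| + |Real.log 2| := by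
    rw [abs_le]
    constructor
    · have := Real.log_le_log hpos h1
      have h3 := neg_abs_le (Real.log (1 - q))
      have h4 := abs_nonneg (Real.log 2)
      linarith
    · have := Real.log_le_log (by linarith) h2
      have h3 := le_abs_self (Real.log 2)
      have h4 := abs_nonneg (Real.log (1 - q))
      linarith
  calc ‖Complex.log (1 - w)‖ ≤ |(Complex.log (1 - w)).re| + |(Complex.log (1 - w)).im| :=
        Complex.norm_le_abs_re_add_abs_im _
    _ ≤ (|Real.log (1 - q)| + |Real.log 2|) + Real.pi := by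
        gcongr
        · rwa [Complex.log_re]
        · rw [Complex.log_im]
          exact Complex.abs_arg_le_pi _

theorem no_zero_of_log {f : ℂ → ℂ} {c : ℂ} {R : ℝ} (hR : 0 < R)
    (hf : AnalyticOnNhd ℂ f (closedBall c R)) {G : ℝ → ℂ} (hG : Continuous G) {C : ℝ}
    (hb : ∀ θ, ‖G θ‖ ≤ C) (h : ∀ θ, f (circleMap c R θ) = Complex.exp (G θ)) :
    ∀ z ∈ closedBall c R, f z ≠ 0 := by
  have hcirc : ∀ θ, circleMap c R θ ∈ closedBall c R := fun θ =>
    circleMap_mem_closedBall c hR.le θ
  obtain ⟨zs, g, hzs, hg, hg0, hfac⟩ := exists_factor hR hf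
    ⟨circleMap c R 0, hcirc 0, by rw [h]; exact Complex.exp_ne_zero _⟩
  obtain ⟨Γ, hΓ, hΓexp⟩ := exists_log_closedBall hR hg hg0
  -- zeros lie in the open ball
  have hin : ∀ u ∈ zs, ‖(u - c) / R‖ < 1 := by
    intro u hu
    have h1 : dist u c ≤ R := hzs u hu
    rw [norm_div, Complex.norm_real, Real.norm_of_nonneg hR.le, div_lt_one hR, ← dist_eq_norm]
    rcases h1.lt_or_eq with h2 | h2
    · exact h2
    · exfalso
      have h3 : u ∈ sphere c R := h2
      have : u ∈ range (circleMap c R) := by rwa [range_circleMap, abs_of_pos hR]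
      obtain ⟨θ, rfl⟩ := this
      have h4 := h θ
      rw [hfac _ (hcirc θ)] at h4
      have h5 : ((zs.map fun v => circleMap c R θ - v).prod) = 0 := by
        apply Multiset.prod_eq_zero
        rw [Multiset.mem_map]
        exact ⟨_, hu, sub_self _⟩
      rw [h5, zero_mul] at h4
      exact Complex.exp_ne_zero _ h4.symm
  -- the sum of the logarithms
  let K : ℝ → ℂ := fun θ => (zs.map fun u => Complex.log (1 - (u - c) / R * Complex.exp (-(θ * Complex.I)))).sum
  have hexpn : ∀ θ : ℝ, ‖Complex.exp (-(θ * Complex.I))‖ = 1 := by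
    intro θ
    rw [Complex.norm_exp]
    simp
  have hKc : Continuous K := by
    have : ∀ s : Multiset ℂ, (∀ u ∈ s, ‖(u - c) / R‖ < 1) → Continuous fun θ : ℝ =>
        (s.map fun u => Complex.log (1 - (u - c) / R * Complex.exp (-(θ * Complex.I)))).sum := by
      intro s
      induction s using Multiset.induction_on with
      | empty => intro _; simpa using continuous_const
      | cons a s ih =>
        intro hs
        simp only [Multiset.map_cons, Multiset.sum_cons]
        refine Continuous.add ?_ (ih fun u hu => hs u (Multiset.mem_cons_of_mem hu))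
        refine Continuous.clog (by fun_prop) ?_
        intro θ
        have h1 : ‖(a - c) / R * Complex.exp (-(θ * Complex.I))‖ < 1 := by
          rw [norm_mul, hexpn, mul_one]
          exact hs a (Multiset.mem_cons_self a s)
        left
        have h2 := Complex.abs_re_le_norm ((a - c) / R * Complex.exp (-(θ * Complex.I)))
        have h3 := (abs_le.1 h2).2
        rw [Complex.sub_re, Complex.one_re]
        linarith
    exact this zs hin
  have hKb : ∃ C', ∀ θ, ‖K θ‖ ≤ C' := by
    have : ∀ s : Multiset ℂ, (∀ u ∈ s, ‖(u - c) / R‖ < 1) → ∃ C', ∀ θ : ℝ,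
        ‖(s.map fun u => Complex.log (1 - (u - c) / R * Complex.exp (-(θ * Complex.I)))).sum‖ ≤ C' := by
      intro s
      induction s using Multiset.induction_on with
      | empty => intro _; exact ⟨0, by simp⟩
      | cons a s ih =>
        intro hs
        obtain ⟨C', hC'⟩ := ih fun u hu => hs u (Multiset.mem_cons_of_mem hu)
        refine ⟨(|Real.log (1 - ‖(a - c) / R‖)| + |Real.log 2| + Real.pi) + C', fun θ => ?_⟩
        simp only [Multiset.map_cons, Multiset.sum_cons]
        refine (norm_add_le _ _).trans (add_le_add ?_ (hC' θ))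
        refine bound_log_one_sub (hs a (Multiset.mem_cons_self a s)) ?_
        rw [norm_mul, hexpn, mul_one]
    exact this zs hin
  have hKexp : ∀ θ : ℝ, (zs.map fun u => circleMap c R θ - u).prod
      = (R:ℂ) ^ (Multiset.card zs) * Complex.exp ((Multiset.card zs : ℕ) * (θ * Complex.I)) * Complex.exp (K θ) := by
    intro θ
    have : ∀ s : Multiset ℂ, (∀ u ∈ s, ‖(u - c) / R‖ < 1) → (s.map fun u => circleMap c R θ - u).prod
      = (R:ℂ) ^ (Multiset.card s) * Complex.exp ((Multiset.card s : ℕ) * (θ * Complex.I)) *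
        Complex.exp (s.map fun u => Complex.log (1 - (u - c) / R * Complex.exp (-(θ * Complex.I)))).sum := by
      intro s
      induction s using Multiset.induction_on with
      | empty => intro _; simp
      | cons a s ih =>
        intro hs
        have ih' := ih fun u hu => hs u (Multiset.mem_cons_of_mem hu)
        simp only [Multiset.map_cons, Multiset.sum_cons, Multiset.prod_cons, Multiset.card_cons]
        rw [ih', Complex.exp_add, Complex.exp_log]
        · have h1 : circleMap c R θ - a = R * Complex.exp (θ * Complex.I) *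
              (1 - (a - c) / R * Complex.exp (-(θ * Complex.I))) := by
            have hRne : (R : ℂ) ≠ 0 := by exact_mod_cast hR.ne'
            rw [circleMap, Complex.exp_neg]
            have := Complex.exp_ne_zero (θ * Complex.I)
            field_simp
            ring
          rw [h1, pow_succ]
          push_cast
          rw [add_mul, Complex.exp_add, one_mul]
          ring
        · intro h0
          have h1 : (a - c) / R * Complex.exp (-(θ * Complex.I)) = 1 := by
            linear_combination -h0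
          have h2 := congrArg norm h1
          rw [norm_mul, hexpn, mul_one, norm_one] at h2
          exact absurd h2 (hs a (Multiset.mem_cons_self a s)).ne
    exact this zs hin
  -- degree zero
  obtain ⟨C₁, hC₁⟩ := hKb
  obtain ⟨C₂, hC₂⟩ := (isCompact_closedBall c R).exists_bound_of_continuousOn hΓ
  let H : ℝ → ℂ := fun θ => G θ - K θ - Γ (circleMap c R θ)
  have hHc : Continuous H := by
    have : Continuous fun θ => Γ (circleMap c R θ) :=
      hΓ.comp_continuous (continuous_circleMap c R) hcirc
    exact (hG.sub hKc).sub this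
  have hHb : ∀ θ, ‖H θ‖ ≤ C + C₁ + C₂ := by
    intro θ
    calc ‖H θ‖ ≤ ‖G θ - K θ‖ + ‖Γ (circleMap c R θ)‖ := norm_sub_le _ _
      _ ≤ (‖G θ‖ + ‖K θ‖) + ‖Γ (circleMap c R θ)‖ := by gcongr; exact norm_sub_le _ _
      _ ≤ C + C₁ + C₂ := by
        gcongr
        · exact hb θ
        · exact hC₁ θ
        · exact hC₂ _ (hcirc θ)
  have hHe : ∀ θ : ℝ, Complex.exp (H θ) =
      ((R:ℂ) ^ (Multiset.card zs)) * Complex.exp ((Multiset.card zs : ℕ) * (θ * Complex.I)) := by
    intro θ
    have h1 := h θ
    rw [hfac _ (hcirc θ), hKexp θ, ← hΓexp _ (hcirc θ)] at h1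
    simp only [H]
    rw [Complex.exp_sub, Complex.exp_sub, ← h1]
    have := Complex.exp_ne_zero (K θ)
    have := Complex.exp_ne_zero (Γ (circleMap c R θ))
    field_simp
  have hcard := degree_zero hHc hHb hHe
  rw [Multiset.card_eq_zero] at hcard
  intro z hz
  rw [hfac z hz, hcard]
  simpa using hg0 z hz

end Pool.Agent.helper29.RS
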