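import Mathlib

set_option autoImplicit false

open Metric Set Filter Topology

namespace Pool.Agent.helper29.RS

/-- Schwarz lemma on an annulus -/
theorem annulus_bound {Ψ : ℂ → ℂ} {N ρ : ℝ} {m : ℕ} (hN : 0 ≤ N) (hρ : 0 < ρ)
    (hΨ : DifferentiableOn ℂ Ψ (ball 0 1)) (hb : ∀ w ∈ ball (0:ℂ) 1, ‖Ψ w‖ ≤ N)
    (hs : ∀ w : ℂ, ‖w‖ = ρ → ‖Ψ w‖ ≤ N * ρ ^ m) {w : ℂ} (h1 : ρ < ‖w‖) (h2 : ‖w‖ < 1) :
    ‖Ψ w‖ ≤ N * ‖w‖ ^ m := by
  have hwpos : 0 < ‖w‖ := hρ.trans h1
  have key : ∀ t : ℝ, ‖w‖ < t → t < 1 → ‖Ψ w‖ / ‖w‖ ^ m ≤ N / t ^ m := by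
    intro t ht1 ht2
    have htpos : 0 < t := hwpos.trans ht1
    let U : Set ℂ := {z | ρ < ‖z‖ ∧ ‖z‖ < t}
    have hUb : Bornology.IsBounded U := by
      apply (isBounded_ball (x := (0:ℂ)) (r := t)).subset
      intro z hz
      rw [mem_ball_zero_iff]
      exact hz.2
    have hcl : closure U ⊆ {z : ℂ | ρ ≤ ‖z‖ ∧ ‖z‖ ≤ t} := by
      apply closure_minimal
      · intro z hz
        exact ⟨hz.1.le, hz.2.le⟩
      · exact (isClosed_le continuous_const continuous_norm).inter
          (isClosed_le continuous_norm continuous_const)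
    have hUo : IsOpen U :=
      (isOpen_lt continuous_const continuous_norm).inter (isOpen_lt continuous_norm continuous_const)
    have hfr : ∀ z ∈ frontier U, ‖z‖ = ρ ∨ ‖z‖ = t := by
      intro z hz
      rw [hUo.frontier_eq] at hz
      obtain ⟨hz1, hz2⟩ := hz
      obtain ⟨h3, h4⟩ := hcl hz1
      by_contra hcon
      push Not at hcon
      exact hz2 ⟨lt_of_le_of_ne h3 (Ne.symm hcon.1), lt_of_le_of_ne h4 hcon.2⟩
    have hdiff : ∀ z : ℂ, ρ ≤ ‖z‖ → ‖z‖ ≤ t → DifferentiableAt ℂ (fun z => Ψ z / z ^ m) z := by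
      intro z hz1 hz2
      have hz0 : z ≠ 0 := by
        intro h0
        rw [h0, norm_zero] at hz1
        linarith
      have hzb : z ∈ ball (0:ℂ) 1 := by rw [mem_ball_zero_iff]; linarith
      exact (hΨ.differentiableAt (isOpen_ball.mem_nhds hzb)).div (by fun_prop) (pow_ne_zero _ hz0)
    have hd : DiffContOnCl ℂ (fun z => Ψ z / z ^ m) U := by
      refine ⟨fun z hz => (hdiff z hz.1.le hz.2.le).differentiableWithinAt, fun z hz => ?_⟩
      obtain ⟨h3, h4⟩ := hcl hz
      exact (hdiff z h3 h4).continuousAt.continuousWithinAt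
    have := Complex.norm_le_of_forall_mem_frontier_norm_le hUb hd (C := N / t ^ m) ?_
      (z := w) (subset_closure ⟨h1, ht1⟩)
    · simpa [norm_div, norm_pow] using this
    · intro z hz
      rw [norm_div, norm_pow]
      rcases hfr z hz with h3 | h3
      · rw [h3]
        calc ‖Ψ z‖ / ρ ^ m ≤ (N * ρ ^ m) / ρ ^ m := by gcongr; exact hs z h3
          _ = N := by field_simp
          _ ≤ N / t ^ m := by
            rw [le_div_iff₀ (by positivity)]
            have : t ^ m ≤ 1 := pow_le_one₀ htpos.le ht2.le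
            nlinarith
      · rw [h3]
        gcongr
        apply hb
        rw [mem_ball_zero_iff, h3]
        exact ht2
  have hlim : Tendsto (fun t : ℝ => N / t ^ m) (𝓝[<] 1) (𝓝 (N / 1 ^ m)) := by
    have : ContinuousAt (fun t : ℝ => N / t ^ m) 1 := by
      apply ContinuousAt.div (by fun_prop) (by fun_prop) (by simp)
    exact this.tendsto.mono_left nhdsWithin_le_nhds
  have h3 : ‖Ψ w‖ / ‖w‖ ^ m ≤ N / 1 ^ m := by
    apply ge_of_tendsto hlim
    have : Ioo ‖w‖ 1 ∈ 𝓝[<] (1:ℝ) := Ioo_mem_nhdsLT h2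
    filter_upwards [this] with t ht
    exact key t ht.1 ht.2
  rw [one_pow, div_one, div_le_iff₀ (by positivity)] at h3
  exact h3

/-- If a bounded function on the right half plane is small on a disc around `σ + i y` of radius
`σ / 16` then it is small near the imaginary axis. -/
theorem propagate {F : ℂ → ℂ} {N σ y : ℝ} {m : ℕ} (hN : 0 ≤ N) (hσ : 0 < σ)
    (hF : DifferentiableOn ℂ F {s : ℂ | 0 < s.re}) (hb : ∀ s : ℂ, 0 < s.re → ‖F s‖ ≤ N)
    (hs : ∀ s : ℂ, dist s (σ + y * Complex.I) ≤ σ / 16 → ‖F s‖ ≤ N * (1 / 33) ^ m)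
    {s : ℂ} (h0 : 0 < s.re) (h1 : s.re ≤ σ) (h2 : |s.im - y| ≤ σ) :
    ‖F s‖ ≤ N * Real.exp (-(2 * s.re / (5 * σ) * m)) := by
  have hσc : (σ : ℂ) ≠ 0 := by exact_mod_cast hσ.ne'
  let φ : ℂ → ℂ := fun w => y * Complex.I + σ * ((1 + w) / (1 - w))
  have hne : ∀ w : ℂ, ‖w‖ < 1 → 1 - w ≠ 0 := by
    intro w hw h3
    have : w = 1 := by linear_combination -h3
    rw [this] at hw
    simp at hw
  have hφre : ∀ w : ℂ, ‖w‖ < 1 → 0 < (φ w).re := by
    intro w hw
    have h3 : ((1 + w) / (1 - w)).re = (1 - Complex.normSq w) / Complex.normSq (1 - w) := by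
      rw [Complex.div_re]
      have h4 : Complex.normSq (1 - w) ≠ 0 := by
        rw [Ne, Complex.normSq_eq_zero]; exact hne w hw
      field_simp
      simp [Complex.normSq_apply]
      ring
    have h4 : (φ w).re = σ * ((1 + w) / (1 - w)).re := by
      simp only [φ, Complex.add_re, Complex.re_ofReal_mul]
      simp
    rw [h4, h3]
    have h5 : 0 < Complex.normSq (1 - w) := Complex.normSq_pos.2 (hne w hw)
    have h6 : Complex.normSq w < 1 := by
      rw [Complex.normSq_eq_norm_sq]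
      nlinarith [norm_nonneg w]
    have : 0 < 1 - Complex.normSq w := by linarith
    positivity
  have hφs : ∀ w : ℂ, ‖w‖ < 1 → φ w - (σ + y * Complex.I) = 2 * σ * w / (1 - w) := by
    intro w hw
    have := hne w hw
    simp only [φ]
    field_simp
    ring
  let Ψ : ℂ → ℂ := fun w => F (φ w)
  have hΨ : DifferentiableOn ℂ Ψ (ball 0 1) := by
    have h3 : DifferentiableOn ℂ φ (ball 0 1) := by
      intro w hw
      have := hne w (mem_ball_zero_iff.1 hw)
      apply DifferentiableAt.differentiableWithinAt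
      simp only [φ]
      fun_prop (disch := assumption)
    exact hF.comp h3 fun w hw => hφre w (mem_ball_zero_iff.1 hw)
  have hsmall : ∀ w : ℂ, ‖w‖ ≤ 1 / 33 → ‖Ψ w‖ ≤ N * (1/33)^m := by
    intro w hw
    have hw1 : ‖w‖ < 1 := by linarith
    apply hs
    rw [dist_eq_norm, hφs w hw1, norm_div, norm_mul, norm_mul, Complex.norm_real,
      Real.norm_of_nonneg hσ.le]
    have h3 : 32 / 33 ≤ ‖1 - w‖ := by
      have := norm_sub_norm_le (1:ℂ) w
      rw [norm_one] at this
      linarith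
    rw [div_le_iff₀ (by linarith)]
    simp only [Complex.norm_ofNat]
    nlinarith
  -- the point
  set a := s.re with ha
  set b := s.im - y with hbdef
  let w : ℂ := (s - y * Complex.I - σ) / (s - y * Complex.I + σ)
  have hden : s - y * Complex.I + σ ≠ 0 := by
    intro h3
    have := congrArg Complex.re h3
    simp at this
    linarith
  have hφw : φ w = s := by
    have h3 : 1 - w = 2 * σ / (s - y * Complex.I + σ) := by
      simp only [w]
      field_simp
      ring
    have h4 : 1 + w = 2 * (s - y * Complex.I) / (s - y * Complex.I + σ) := by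
      simp only [w]
      field_simp
      ring
    simp only [φ]
    rw [h3, h4]
    field_simp
    ring
  have hnum : Complex.normSq (s - y * Complex.I - σ) = (a - σ)^2 + b^2 := by
    simp [Complex.normSq_apply, ha, hbdef]
    ring
  have hdenn : Complex.normSq (s - y * Complex.I + σ) = (a + σ)^2 + b^2 := by
    simp [Complex.normSq_apply, ha, hbdef]
    ring
  have hwn : ‖w‖^2 = 1 - 4 * a * σ / ((a + σ)^2 + b^2) := by
    rw [← Complex.normSq_eq_norm_sq]
    simp only [w]
    rw [Complex.normSq_div, hnum, hdenn]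
    have : (a + σ)^2 + b^2 ≠ 0 := by positivity
    field_simp
    ring
  have hq : (a + σ)^2 + b^2 ≤ 5 * σ^2 := by
    have := sq_le_sq' (by linarith [(abs_le.1 h2).1]) (abs_le.1 h2).2
    nlinarith
  have hw2 : ‖w‖^2 ≤ Real.exp (-(4 * a / (5 * σ))) := by
    rw [hwn]
    have h3 : 4 * a / (5 * σ) ≤ 4 * a * σ / ((a + σ)^2 + b^2) := by
      rw [div_le_div_iff₀ (by positivity) (by positivity)]
      nlinarith [mul_le_mul_of_nonneg_left hq (by positivity : 0 ≤ 4 * a)]
    have h4 := Real.add_one_le_exp (-(4 * a / (5 * σ)))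
    linarith
  have hw1 : ‖w‖ < 1 := by
    have h3 : Real.exp (-(4 * a / (5 * σ))) < 1 := by
      rw [Real.exp_lt_one_iff]
      have : 0 < 4 * a / (5 * σ) := by positivity
      linarith
    have h4 : ‖w‖^2 < 1 := hw2.trans_lt h3
    nlinarith [norm_nonneg w]
  have hwe : ‖w‖ ≤ Real.exp (-(2 * a / (5 * σ))) := by
    have h3 : Real.exp (-(4 * a / (5 * σ))) = Real.exp (-(2 * a / (5 * σ)))^2 := by
      rw [← Real.exp_nat_mul]
      congr 1
      push_cast
      ring
    rw [h3] at hw2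
    exact (pow_le_pow_iff_left₀ (norm_nonneg _) (Real.exp_pos _).le two_ne_zero).1 hw2
  have hexp : Real.exp (-(2 * a / (5 * σ)))^m = Real.exp (-(2 * a / (5 * σ) * m)) := by
    rw [← Real.exp_nat_mul]
    congr 1
    ring
  have hfin : F s = Ψ w := by simp only [Ψ]; rw [hφw]
  rw [hfin, ← hexp]
  rcases le_or_gt ‖w‖ (1/33) with h3 | h3
  · refine (hsmall w h3).trans ?_
    gcongr
    have h4 : 2 * a / (5 * σ) ≤ 2 / 5 := by
      rw [div_le_div_iff₀ (by positivity) (by positivity)]
      nlinarith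
    have h5 := Real.add_one_le_exp (-(2 * a / (5 * σ)))
    linarith
  · refine (annulus_bound (m := m) hN (by norm_num : (0:ℝ) < 1/33) hΨ ?_ ?_ h3 hw1).trans ?_
    · intro z hz
      exact hb _ (hφre z (mem_ball_zero_iff.1 hz))
    · intro z hz
      exact hsmall z hz.le
    · gcongr

end Pool.Agent.helper29.RS
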